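import Pool.Agent.Results.MP_29be01_nt.PolynomialFamilies
import Pool.Agent.Results.MP_29be01_nt.ReflectedBoxes
import Pool.Agent.V11326.WW

/-!
# Frobenius angles at `s` consecutive primes for ALL curves of every family in windows around a thin sequence

Let `v ≥ 1` be a sequence with exponent of convergence at most `τ` (for `v_m = b ^ m` it is `0`, for `v_m = m ^ a` it is
`1 / a`) and `θ < 1`. (1) For all `α > 0` outside ONE set of Hausdorff dimension at most `(1 - κ + τ) / (1 - θ)`, for ALL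
families `y² = x³ + a(n) x + b(n)`, `a, b ∈ ℤ[T]`, all large `m` and ALL `n` with `|n - α v_m| ≤ v_m ^ θ`: for all `K ≤ n ^ κ`
and all boxes the number of the `k < K` such that the angles of the curve at the `s` consecutive primes with the numbers
`k, ..., k + s - 1` are in the box differs from the expected number by at most `C K ^ (1/2 + δ) (1 + log n) ^ (1/2)`.
(2) The same for ALL quadratic twists `y² = x³ + A D² x + B D³`, `| |D| - α v_m | ≤ v_m ^ θ`, of ALL curves: for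
`(log |D|) ^ C ≤ K ≤ |D| ^ c` the numbers for the twist are the means over the `2 ^ s` reflections of the box of the numbers
for the curve itself, up to `K ^ (1/2 + ε)`.
-/

set_option autoImplicit false

namespace Pool.Agent.Results.MP_29be01_nt.AllCurvesInWindows

open Polynomial Pool.Agent.Results.MP_29be01_nt.PolynomialFamilies

/-- the exponent of convergence of the sequence `v` is at most `τ` -/
def ExpLe (v : ℕ → ℝ) (τ : ℝ) : Prop := ∀ t : ℝ, τ < t → Summable (fun n : ℕ => (v n) ^ (-t))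

instance : Countable ℤ[X] := by
  rw [← Cardinal.mk_le_aleph0_iff]
  exact Polynomial.cardinalMk_le_max.trans (by simp)

/-- **Theorem.** (1) For all `s ≥ 1` and `δ > 0` there are `0 < κ ≤ 1 / 2` and `C` such that for every sequence `v ≥ 1` with
exponent of convergence at most `τ` and `θ < 1` there is a set `E` of Hausdorff dimension at most `(1 - κ + τ) / (1 - θ)` with
the following property: for all `α > 0` outside `E`, ALL polynomials `a, b ∈ ℤ[T]`, all large `m`, ALL `n` with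
`|n - α v_m| ≤ v_m ^ θ`, all `K ≤ n ^ κ` and all boxes `I` (products of `s` intervals) the number `boxCount` of the curve
`y² = x³ + a(n) x + b(n)` differs from the expected number `boxModel` by at most `C K ^ (1/2 + δ) (1 + log n) ^ (1/2)`.
(2) For all `s` and `ε > 0` there are `C` and `0 < c ≤ 1 / 2` such that for all such `v`, `θ` there is a set `E` of dimension
at most `(1 - c + τ) / (1 - θ)` with: for all `α > 0` outside `E`, ALL integers `A`, `B`, all large `m`, ALL `D ≠ 0` with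
`| |D| - α v_m | ≤ v_m ^ θ`, all `K` with `(log |D|) ^ C ≤ K ≤ |D| ^ c` and all boxes `R` the number `cons` of the twist
`y² = x³ + A D² x + B D³` is the mean of the numbers of `y² = x³ + A x + B` over the `2 ^ s` reflections of the box, up to
`K ^ (1/2 + ε)`. (3) The sequences `v_n = (n + 1) ^ a` and `v_n = b ^ n` have exponent of convergence at most `1 / a`, `0`. -/
theorem result :
    (∀ (s : ℕ) (δ : ℝ), 1 ≤ s → 0 < δ → ∃ κ C : ℝ, 0 < κ ∧ κ ≤ 1 / 2 ∧ 0 < C ∧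
      ∀ (v : ℕ → ℝ) (τ θ : ℝ), (∀ n, 1 ≤ v n) → 0 ≤ τ → ExpLe v τ → θ < 1 →
      ∃ E : Set ℝ, dimH E ≤ ENNReal.ofReal ((1 - κ + τ) / (1 - θ)) ∧ ∀ α : ℝ, 0 < α → α ∉ E → ∀ a b : ℤ[X],
        ∃ m₀ : ℕ, ∀ m : ℕ, m₀ ≤ m → ∀ n : ℕ, |(n : ℝ) - α * v m| ≤ (v m) ^ θ →
          ∀ K : ℕ, (K : ℝ) ≤ (n : ℝ) ^ κ → ∀ I : Fin s → Set ℝ, (∀ i, (I i).OrdConnected) →
            |(boxCount (a.eval (n : ℤ)) (b.eval (n : ℤ)) I K : ℝ) - boxModel a b I K| ≤
              C * ((K : ℝ) ^ (1 / 2 + δ) * √(1 + Real.log n))) ∧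
    (∀ (s : ℕ) (ε : ℝ), 0 < ε → ∃ C c : ℝ, 0 < C ∧ 0 < c ∧ c ≤ 1 / 2 ∧
      ∀ (v : ℕ → ℝ) (τ θ : ℝ), (∀ n, 1 ≤ v n) → 0 ≤ τ → ExpLe v τ → θ < 1 →
      ∃ E : Set ℝ, dimH E ≤ ENNReal.ofReal ((1 - c + τ) / (1 - θ)) ∧ ∀ α : ℝ, 0 < α → α ∉ E → ∀ A B : ℤ,
        ∃ m₀ : ℕ, ∀ m : ℕ, m₀ ≤ m → ∀ D : ℤ, D ≠ 0 → |(|(D : ℝ)|) - α * v m| ≤ (v m) ^ θ →
          ∀ K : ℕ, (Real.log |(D : ℝ)|) ^ C ≤ K → (K : ℝ) ≤ |(D : ℝ)| ^ c →
          ∀ R : Fin s → Set ℝ, (∀ i, (R i).OrdConnected) →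
            |(Pool.Agent.W406.TW.cons (A * D ^ 2) (B * D ^ 3) R K : ℝ) -
              (1 / 2 ^ s) * ∑ J : Finset (Fin s), (Pool.Agent.W406.TW.cons A B (Pool.Agent.W406.TW.refl J R) K : ℝ)| ≤
              (K : ℝ) ^ (1 / 2 + ε)) ∧
    (∀ a : ℝ, 0 < a → ExpLe (fun n : ℕ => ((n : ℝ) + 1) ^ a) (1 / a)) ∧
    (∀ b : ℝ, 1 < b → ExpLe (fun n : ℕ => b ^ n) 0) := by
  classical
  refine ⟨?_, ?_, fun κ hκ => Pool.Agent.Y854.GM.expLe_pow κ hκ, fun b hb => Pool.Agent.Y854.GM.expLe_geom b hb⟩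
  · intro s δ hs hδ
    obtain ⟨κ, C, hκ, hC, h⟩ := Pool.Agent.Results.MP_29be01_nt.PolynomialFamilies.result s hs δ hδ
    refine ⟨min κ (1 / 2), 2 * C, lt_min hκ (by norm_num), min_le_right _ _, by linarith, fun v τ θ hv hτ hE hθ1 => ?_⟩
    obtain ⟨E, hE1, hE2⟩ := Pool.Agent.V11326.WW.nat_windows (ι := ℤ[X] × ℤ[X])
      (fun i => {n : ℕ | ¬ (∀ K : ℕ, (K : ℝ) ≤ (n : ℝ) ^ min κ (1 / 2) → ∀ I : Fin s → Set ℝ, (∀ i, (I i).OrdConnected) →
            |(boxCount (i.1.eval (n : ℤ)) (i.2.eval (n : ℤ)) I K : ℝ) - boxModel i.1 i.2 I K| ≤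
              2 * C * ((K : ℝ) ^ (1 / 2 + δ) * √(1 + Real.log n)))})
      (s := 1 - min κ (1 / 2)) (by linarith [min_le_right κ (1 / 2)])
      (fun i => ⟨_, Pool.Agent.V11326.WW.fam_count hκ hC.le 1
        (fun n : ℕ => ∀ K : ℕ, (K : ℝ) ≤ (n : ℝ) ^ min κ (1 / 2) → ∀ I : Fin s → Set ℝ, (∀ i, (I i).OrdConnected) →
            |(boxCount (i.1.eval (n : ℤ)) (i.2.eval (n : ℤ)) I K : ℝ) - boxModel i.1 i.2 I K| ≤
              2 * C * ((K : ℝ) ^ (1 / 2 + δ) * √(1 + Real.log n)))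
        (fun N n : ℕ => ∀ K : ℕ, (K : ℝ) ≤ (N : ℝ) ^ κ → ∀ I : Fin s → Set ℝ, (∀ i, (I i).OrdConnected) →
            |(boxCount (i.1.eval (n : ℤ)) (i.2.eval (n : ℤ)) I K : ℝ) - boxModel i.1 i.2 I K| ≤
              C * ((K : ℝ) ^ (1 / 2 + δ) * √(1 + Real.log N)))
        (by
          intro N n hN hn1 hn2 hQ K hK I hI
          have hN1 : (1 : ℝ) ≤ N := hN
          have hnN : (n : ℝ) ≤ N := by exact_mod_cast hn2
          have hn3 : (1 : ℝ) ≤ n := (Real.one_le_rpow hN1 (by norm_num)).trans hn1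
          have hK' : (K : ℝ) ≤ (N : ℝ) ^ κ := by
            refine hK.trans ?_
            calc (n : ℝ) ^ min κ (1 / 2) ≤ (N : ℝ) ^ min κ (1 / 2) :=
                  Real.rpow_le_rpow (by linarith) hnN (lt_min hκ (by norm_num)).le
              _ ≤ (N : ℝ) ^ κ := Real.rpow_le_rpow_of_exponent_le hN1 (min_le_left _ _)
          refine (hQ K hK' I hI).trans ?_
          have hlog : Real.log N ≤ 2 * Real.log n := by
            have h1 : Real.log ((N : ℝ) ^ (1 / 2 : ℝ)) ≤ Real.log n := Real.log_le_log (by positivity) hn1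
            rw [Real.log_rpow (by linarith)] at h1
            linarith
          have hln : 0 ≤ Real.log n := Real.log_nonneg hn3
          have hsq : √(1 + Real.log N) ≤ 2 * √(1 + Real.log n) := by
            rw [show (2 : ℝ) = √4 by rw [show (4 : ℝ) = 2 ^ 2 by norm_num, Real.sqrt_sq (by norm_num)],
              ← Real.sqrt_mul (by norm_num)]
            apply Real.sqrt_le_sqrt
            linarith
          have hKp : 0 ≤ (K : ℝ) ^ (1 / 2 + δ) := by positivity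
          calc C * ((K : ℝ) ^ (1 / 2 + δ) * √(1 + Real.log N))
              ≤ C * ((K : ℝ) ^ (1 / 2 + δ) * (2 * √(1 + Real.log n))) := by gcongr
            _ = 2 * C * ((K : ℝ) ^ (1 / 2 + δ) * √(1 + Real.log n)) := by ring)
        (fun N hN => by
          obtain ⟨E, h1, h2⟩ := h i.1 i.2 N hN
          exact ⟨E, h1, fun n hn hnE K hK I hI => h2 n hn hnE K hK I hI⟩)⟩)
      hv hτ hE hθ1
    refine ⟨E, hE1, fun α hα hαE a b => ?_⟩
    obtain ⟨m₀, hm⟩ := hE2 α hα hαE (a, b)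
    exact ⟨m₀, fun m hm1 n hw => not_not.1 (hm m hm1 n hw)⟩
  · intro s ε hε
    obtain ⟨C, c, hC, hc, N₀, hN⟩ := Pool.Agent.Results.MP_29be01_nt.ReflectedBoxes.result s ε hε
    refine ⟨C + 1, min c (1 / 2), by linarith, lt_min hc (by norm_num), min_le_right _ _, fun v τ θ hv hτ hE hθ1 => ?_⟩
    obtain ⟨M, hM⟩ := Pool.Agent.V11326.WW.twist_count hC hc N₀
    obtain ⟨E, hE1, hE2⟩ := Pool.Agent.V11326.WW.int_windows (ι := ℤ × ℤ)
      (fun i => {D : ℤ | D ≠ 0 ∧ ∃ K : ℕ, (Real.log |(D : ℝ)|) ^ (C + 1) ≤ K ∧ (K : ℝ) ≤ |(D : ℝ)| ^ c ∧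
        ∃ R : Fin s → Set ℝ, (∀ i, (R i).OrdConnected) ∧
          (K : ℝ) ^ (1 / 2 + ε) < |(Pool.Agent.W406.TW.cons (i.1 * D ^ 2) (i.2 * D ^ 3) R K : ℝ) -
            (1 / 2 ^ s) * ∑ J : Finset (Fin s),
              (Pool.Agent.W406.TW.cons i.1 i.2 (Pool.Agent.W406.TW.refl J R) K : ℝ)|})
      (s := 1 - min c (1 / 2)) (by linarith [min_le_right c (1 / 2)])
      (fun i => ⟨M, hM (fun D K => ∃ R : Fin s → Set ℝ, (∀ i, (R i).OrdConnected) ∧
          (K : ℝ) ^ (1 / 2 + ε) < |(Pool.Agent.W406.TW.cons (i.1 * D ^ 2) (i.2 * D ^ 3) R K : ℝ) -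
            (1 / 2 ^ s) * ∑ J : Finset (Fin s),
              (Pool.Agent.W406.TW.cons i.1 i.2 (Pool.Agent.W406.TW.refl J R) K : ℝ)|)
        (fun N hN' => hN N hN' i.1 i.2)⟩)
      hv hτ hE hθ1
    refine ⟨E, hE1, fun α hα hαE A B => ?_⟩
    obtain ⟨n₀, hn⟩ := hE2 α hα hαE (A, B)
    refine ⟨n₀, fun n hn1 D hD0 hw K hx1 hx2 R hR =>
      not_lt.1 fun hcon => hn n hn1 D hw ⟨hD0, K, hx1, ?_, R, hR, hcon⟩⟩
    refine hx2.trans (Real.rpow_le_rpow_of_exponent_le ?_ (min_le_left _ _))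
    have h1 : 1 ≤ |D| := Int.one_le_abs hD0
    exact_mod_cast h1

end Pool.Agent.Results.MP_29be01_nt.AllCurvesInWindows
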