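import Pool.Agent.Results.MP_29be01_nt.PolynomialFamilies
import Pool.Agent.Results.MP_29be01_nt.ReflectedBoxes
import Pool.Agent.V1172.PW.Eng
import Pool.Agent.V1172.PW.Cnt

/-!
# Frobenius angles at `s` consecutive primes for all curves of every family in shrinking residue classes

Let `ℓ` be a prime and `σ > 0`. (1) For all `ℓ`-adic integers `α` outside ONE set of Hausdorff dimension at most
`(1 - κ) / σ` (`ℤ_ℓ` has dimension one, `σ < 1` is allowed), for ALL families `y² = x³ + a(n) x + b(n)`, `a, b ∈ ℤ[T]`, all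
large `T` and ALL `n ≤ T` with `|n - α|_ℓ ≤ T ^ (-σ)`, that is, in the residue class of `α` modulo `ℓ ^ f ≥ T ^ σ`: for all
`K ≤ n ^ κ` and all boxes the number of the `k < K` such that the angles of the curve at the `s` consecutive primes with
the numbers `k, ..., k + s - 1` are in the box differs from the expected number by at most
`C K ^ (1/2 + δ) (1 + log n) ^ (1/2)`. (2) The same for ALL quadratic twists `y² = x³ + A D² x + B D³`, `|D| ≤ T`,
`|D - α|_ℓ ≤ T ^ (-σ)`, of ALL curves: for `(log |D|) ^ C ≤ K ≤ |D| ^ c` the numbers for the twist are the means over the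
`2 ^ s` reflections of the box of the numbers for the curve itself, up to `K ^ (1/2 + ε)`.
-/

set_option autoImplicit false

namespace Pool.Agent.Results.MP_29be01_nt.CurvesInResidueClasses

open Polynomial Pool.Agent.Results.MP_29be01_nt.PolynomialFamilies

lemma countable_poly : Countable ℤ[X] := by
  rw [← Cardinal.mk_le_aleph0_iff]
  exact Polynomial.cardinalMk_le_max.trans (by simp)

/-- **Theorem.** (1) For all `s ≥ 1` and `δ > 0` there are `0 < κ ≤ 1 / 2` and `C` such that for every prime `ℓ` and `σ > 0`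
there is a set `E` of `ℓ`-adic integers of Hausdorff dimension at most `(1 - κ) / σ` with the following property: for all
`α ∈ ℤ_ℓ` outside `E`, ALL polynomials `a, b ∈ ℤ[T]`, all large `T`, ALL `n ≤ T` with `|n - α|_ℓ ≤ T ^ (-σ)`, all
`K ≤ n ^ κ` and all boxes `I` (products of `s` intervals) the number `boxCount` of the curve
`y² = x³ + a(n) x + b(n)` differs from the expected number `boxModel` by at most `C K ^ (1/2 + δ) (1 + log n) ^ (1/2)`.
(2) For all `s` and `ε > 0` there are `C` and `0 < c ≤ 1 / 2` such that for all `ℓ`, `σ` there is a set `E` of dimension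
at most `(1 - c) / σ` with: for all `α ∈ ℤ_ℓ` outside `E`, ALL integers `A`, `B`, all large `T`, ALL `D ≠ 0` with
`|D| ≤ T` and `|D - α|_ℓ ≤ T ^ (-σ)`, all `K` with `(log |D|) ^ C ≤ K ≤ |D| ^ c` and all boxes `R` the number `cons` of the
twist `y² = x³ + A D² x + B D³` is the mean of the numbers of `y² = x³ + A x + B` over the `2 ^ s` reflections of the box,
up to `K ^ (1/2 + ε)`. -/
theorem result :
    (∀ (s : ℕ) (δ : ℝ), 1 ≤ s → 0 < δ → ∃ κ C : ℝ, 0 < κ ∧ κ ≤ 1 / 2 ∧ 0 < C ∧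
      ∀ (l : ℕ) [Fact l.Prime] (σ : ℝ), 0 < σ →
      ∃ E : Set ℤ_[l], dimH E ≤ ENNReal.ofReal ((1 - κ) / σ) ∧ ∀ α : ℤ_[l], α ∉ E → ∀ a b : ℤ[X],
        ∃ T₀ : ℝ, ∀ T : ℝ, T₀ ≤ T → ∀ n : ℕ, (n : ℝ) ≤ T → ‖(n : ℤ_[l]) - α‖ ≤ T ^ (-σ) →
          ∀ K : ℕ, (K : ℝ) ≤ (n : ℝ) ^ κ → ∀ I : Fin s → Set ℝ, (∀ i, (I i).OrdConnected) →
            |(boxCount (a.eval (n : ℤ)) (b.eval (n : ℤ)) I K : ℝ) - boxModel a b I K| ≤
              C * ((K : ℝ) ^ (1 / 2 + δ) * √(1 + Real.log n))) ∧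
    (∀ (s : ℕ) (ε : ℝ), 0 < ε → ∃ C c : ℝ, 0 < C ∧ 0 < c ∧ c ≤ 1 / 2 ∧
      ∀ (l : ℕ) [Fact l.Prime] (σ : ℝ), 0 < σ →
      ∃ E : Set ℤ_[l], dimH E ≤ ENNReal.ofReal ((1 - c) / σ) ∧ ∀ α : ℤ_[l], α ∉ E → ∀ A B : ℤ,
        ∃ T₀ : ℝ, ∀ T : ℝ, T₀ ≤ T → ∀ D : ℤ, D ≠ 0 → |(D : ℝ)| ≤ T → ‖(D : ℤ_[l]) - α‖ ≤ T ^ (-σ) →
          ∀ K : ℕ, (Real.log |(D : ℝ)|) ^ C ≤ K → (K : ℝ) ≤ |(D : ℝ)| ^ c →
          ∀ R : Fin s → Set ℝ, (∀ i, (R i).OrdConnected) →
            |(Pool.Agent.W406.TW.cons (A * D ^ 2) (B * D ^ 3) R K : ℝ) -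
              (1 / 2 ^ s) * ∑ J : Finset (Fin s), (Pool.Agent.W406.TW.cons A B (Pool.Agent.W406.TW.refl J R) K : ℝ)| ≤
              (K : ℝ) ^ (1 / 2 + ε)) := by
  classical
  refine ⟨?_, ?_⟩
  · intro s δ hs hδ
    obtain ⟨κ, C, hκ, hC, h⟩ := Pool.Agent.Results.MP_29be01_nt.PolynomialFamilies.result s hs δ hδ
    refine ⟨min κ (1 / 2), 2 * C, lt_min hκ (by norm_num), min_le_right _ _, by linarith, fun l hl σ hσ => ?_⟩
    have hcp : Countable ℤ[X] := countable_poly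
    obtain ⟨E, hE1, hE2⟩ := Pool.Agent.V1172.PW.nats l (ι := ℤ[X] × ℤ[X])
      (fun i => {n : ℕ | ¬ (∀ K : ℕ, (K : ℝ) ≤ (n : ℝ) ^ min κ (1 / 2) → ∀ I : Fin s → Set ℝ, (∀ i, (I i).OrdConnected) →
            |(boxCount (i.1.eval (n : ℤ)) (i.2.eval (n : ℤ)) I K : ℝ) - boxModel i.1 i.2 I K| ≤
              2 * C * ((K : ℝ) ^ (1 / 2 + δ) * √(1 + Real.log n)))})
      (s := 1 - min κ (1 / 2)) (by linarith [min_le_right κ (1 / 2)])
      (fun i => ⟨_, Pool.Agent.V1172.PW.fam_count hκ hC.le 1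
        (fun n : ℕ => ∀ K : ℕ, (K : ℝ) ≤ (n : ℝ) ^ min κ (1 / 2) → ∀ I : Fin s → Set ℝ, (∀ i, (I i).OrdConnected) →
            |(boxCount (i.1.eval (n : ℤ)) (i.2.eval (n : ℤ)) I K : ℝ) - boxModel i.1 i.2 I K| ≤
              2 * C * ((K : ℝ) ^ (1 / 2 + δ) * √(1 + Real.log n)))
        (fun N n : ℕ => ∀ K : ℕ, (K : ℝ) ≤ (N : ℝ) ^ κ → ∀ I : Fin s → Set ℝ, (∀ i, (I i).OrdConnected) →
            |(boxCount (i.1.eval (n : ℤ)) (i.2.eval (n : ℤ)) I K : ℝ) - boxModel i.1 i.2 I K| ≤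
              C * ((K : ℝ) ^ (1 / 2 + δ) * √(1 + Real.log N)))
        (by
          intro N n hN hn1 hn2 hQ K hK I hI
          have hN1 : (1 : ℝ) ≤ N := hN
          have hnN : (n : ℝ) ≤ N := by exact_mod_cast hn2
          have hn3 : (1 : ℝ) ≤ n := (Real.one_le_rpow hN1 (by norm_num)).trans hn1
          have hK' : (K : ℝ) ≤ (N : ℝ) ^ κ := by
            refine hK.trans ?_
            calc (n : ℝ) ^ min κ (1 / 2) ≤ (N : ℝ) ^ min κ (1 / 2) :=
                  Real.rpow_le_rpow (by linarith) hnN (lt_min hκ (by norm_num)).le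
              _ ≤ (N : ℝ) ^ κ := Real.rpow_le_rpow_of_exponent_le hN1 (min_le_left _ _)
          refine (hQ K hK' I hI).trans ?_
          have hlog : Real.log N ≤ 2 * Real.log n := by
            have h1 : Real.log ((N : ℝ) ^ (1 / 2 : ℝ)) ≤ Real.log n := Real.log_le_log (by positivity) hn1
            rw [Real.log_rpow (by linarith)] at h1
            linarith
          have hln : 0 ≤ Real.log n := Real.log_nonneg hn3
          have hsq : √(1 + Real.log N) ≤ 2 * √(1 + Real.log n) := by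
            rw [show (2 : ℝ) = √4 by rw [show (4 : ℝ) = 2 ^ 2 by norm_num, Real.sqrt_sq (by norm_num)],
              ← Real.sqrt_mul (by norm_num)]
            apply Real.sqrt_le_sqrt
            linarith
          have hKp : 0 ≤ (K : ℝ) ^ (1 / 2 + δ) := by positivity
          calc C * ((K : ℝ) ^ (1 / 2 + δ) * √(1 + Real.log N))
              ≤ C * ((K : ℝ) ^ (1 / 2 + δ) * (2 * √(1 + Real.log n))) := by gcongr
            _ = 2 * C * ((K : ℝ) ^ (1 / 2 + δ) * √(1 + Real.log n)) := by ring)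
        (fun N hN => by
          obtain ⟨E, h1, h2⟩ := h i.1 i.2 N hN
          exact ⟨E, h1, fun n hn hnE K hK I hI => h2 n hn hnE K hK I hI⟩)⟩)
      hσ
    refine ⟨E, hE1, fun α hαE a b => ?_⟩
    obtain ⟨T₀, hT⟩ := hE2 α hαE (a, b)
    exact ⟨T₀, fun T hT1 n hn hw => not_not.1 (hT T hT1 n hn hw)⟩
  · intro s ε hε
    obtain ⟨C, c, hC, hc, N₀, hN⟩ := Pool.Agent.Results.MP_29be01_nt.ReflectedBoxes.result s ε hε
    refine ⟨C + 1, min c (1 / 2), by linarith, lt_min hc (by norm_num), min_le_right _ _, fun l hl σ hσ => ?_⟩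
    obtain ⟨M, hM⟩ := Pool.Agent.V1172.PW.twist_count hC hc N₀
    obtain ⟨E, hE1, hE2⟩ := Pool.Agent.V1172.PW.ints l (ι := ℤ × ℤ)
      (fun i => {D : ℤ | D ≠ 0 ∧ ∃ K : ℕ, (Real.log |(D : ℝ)|) ^ (C + 1) ≤ K ∧ (K : ℝ) ≤ |(D : ℝ)| ^ c ∧
        ∃ R : Fin s → Set ℝ, (∀ i, (R i).OrdConnected) ∧
          (K : ℝ) ^ (1 / 2 + ε) < |(Pool.Agent.W406.TW.cons (i.1 * D ^ 2) (i.2 * D ^ 3) R K : ℝ) -
            (1 / 2 ^ s) * ∑ J : Finset (Fin s),
              (Pool.Agent.W406.TW.cons i.1 i.2 (Pool.Agent.W406.TW.refl J R) K : ℝ)|})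
      (s := 1 - min c (1 / 2)) (by linarith [min_le_right c (1 / 2)])
      (fun i η hη => ⟨|M|, fun X hX => by
        obtain ⟨g1, g2⟩ := hM (fun D K => ∃ R : Fin s → Set ℝ, (∀ i, (R i).OrdConnected) ∧
          (K : ℝ) ^ (1 / 2 + ε) < |(Pool.Agent.W406.TW.cons (i.1 * D ^ 2) (i.2 * D ^ 3) R K : ℝ) -
            (1 / 2 ^ s) * ∑ J : Finset (Fin s),
              (Pool.Agent.W406.TW.cons i.1 i.2 (Pool.Agent.W406.TW.refl J R) K : ℝ)|)
          (fun N hN' => hN N hN' i.1 i.2) X hX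
        refine ⟨g1, g2.trans ?_⟩
        calc M * X ^ (1 - min c (1 / 2)) ≤ |M| * X ^ (1 - min c (1 / 2)) :=
              mul_le_mul_of_nonneg_right (le_abs_self M) (Real.rpow_nonneg (by linarith) _)
          _ ≤ |M| * X ^ (1 - min c (1 / 2) + η) :=
              mul_le_mul_of_nonneg_left (Real.rpow_le_rpow_of_exponent_le hX (by linarith)) (abs_nonneg M)⟩)
      hσ
    refine ⟨E, hE1, fun α hαE A B => ?_⟩
    obtain ⟨T₀, hT⟩ := hE2 α hαE (A, B)
    refine ⟨T₀, fun T hT1 D hD0 hDT hw K hx1 hx2 R hR =>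
      not_lt.1 fun hcon => hT T hT1 D hDT hw ⟨hD0, K, hx1, ?_, R, hR, hcon⟩⟩
    refine hx2.trans (Real.rpow_le_rpow_of_exponent_le ?_ (min_le_left _ _))
    have h1 : 1 ≤ |D| := Int.one_le_abs hD0
    exact_mod_cast h1

end Pool.Agent.Results.MP_29be01_nt.CurvesInResidueClasses
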