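import Pool.Agent.Results.MP_29be01_nt.PolynomialFamilies
import Pool.Agent.Results.MP_29be01_nt.ReflectedBoxes
import Pool.Agent.V11326.WW
import Pool.Agent.V11153.NearW

/-!
# Frobenius angles at `s` consecutive primes for ALL curves of every family near the powers of almost every number

Let `ν m / log m → ∞`, for example `ν m = m`. (1) For almost every real `x > 1`, for ALL families
`y² = x³ + a(n) x + b(n)`, `a, b ∈ ℤ[T]`, and `θ < κ`, all but finitely many natural numbers `n` with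
`|n - x ^ (ν m)| ≤ x ^ (θ ν m)` for some `m` have the following property: for all `K ≤ n ^ κ` and all boxes the number of the
`k < K` such that the angles of the curve at the `s` consecutive primes with the numbers `k, ..., k + s - 1` are in the box
differs from the expected number by at most `C K ^ (1/2 + δ) (1 + log n) ^ (1/2)`. (2) The same for the quadratic twists
`y² = x³ + A D² x + B D³` of ALL curves, `| |D| - x ^ (ν m) | ≤ x ^ (θ ν m)`, `θ < c`: for `(log |D|) ^ C ≤ K ≤ |D| ^ c` the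
numbers for the twist are the means over the `2 ^ s` reflections of the box of the numbers for the curve itself, up to
`K ^ (1/2 + ε)`.
-/

set_option autoImplicit false

namespace Pool.Agent.Results.MP_29be01_nt.CurvesNearPowers

open Polynomial Pool.Agent.Results.MP_29be01_nt.PolynomialFamilies
open Pool.Agent.V11001.KM (Fast Near)

instance : Countable ℤ[X] := by
  rw [← Cardinal.mk_le_aleph0_iff]
  exact Polynomial.cardinalMk_le_max.trans (by simp)

/-- The natural numbers `n` for which, for some `K ≤ n ^ κ` and some box `I` (a product of `s` intervals), the number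
`boxCount` of the curve `y² = x³ + a(n) x + b(n)` differs from the expected number `boxModel` by more than
`C K ^ (1/2 + δ) (1 + log n) ^ (1/2)`. -/
def BadN (s : ℕ) (a b : ℤ[X]) (κ C δ : ℝ) : Set ℕ :=
  {n : ℕ | ¬ (∀ K : ℕ, (K : ℝ) ≤ (n : ℝ) ^ κ → ∀ I : Fin s → Set ℝ, (∀ i, (I i).OrdConnected) →
    |(boxCount (a.eval (n : ℤ)) (b.eval (n : ℤ)) I K : ℝ) - boxModel a b I K| ≤
      C * ((K : ℝ) ^ (1 / 2 + δ) * √(1 + Real.log n)))}

/-- The integers `D ≠ 0` for which, for some `K` with `(log |D|) ^ C ≤ K ≤ |D| ^ c` and some box `R`, the number `cons` of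
the twist `y² = x³ + A D² x + B D³` differs from the mean of the numbers of `y² = x³ + A x + B` over the `2 ^ s`
reflections of the box by more than `K ^ (1/2 + ε)`. -/
def BadD (s : ℕ) (A B : ℤ) (C c ε : ℝ) : Set ℤ :=
  {D : ℤ | D ≠ 0 ∧ ∃ K : ℕ, (Real.log |(D : ℝ)|) ^ C ≤ K ∧ (K : ℝ) ≤ |(D : ℝ)| ^ c ∧
    ∃ R : Fin s → Set ℝ, (∀ i, (R i).OrdConnected) ∧
      (K : ℝ) ^ (1 / 2 + ε) < |(Pool.Agent.W406.TW.cons (A * D ^ 2) (B * D ^ 3) R K : ℝ) -
        (1 / 2 ^ s) * ∑ J : Finset (Fin s), (Pool.Agent.W406.TW.cons A B (Pool.Agent.W406.TW.refl J R) K : ℝ)|}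

/-- **Theorem.** Let `ν m / log m → ∞`, for example `ν m = m`, and let `U` be a countable set of real numbers. (1) For all
`s ≥ 1` and `δ > 0` there are `0 < κ ≤ 1 / 2` and `C`, which do not depend on `ν` and `U`, with: for `θ < 1` there is a set
`E` of Hausdorff dimension at most `(1 - κ) / (1 - θ)` such that for all `x > 1` outside of `E`, all `y > 0` in `U` and ALL
polynomials `a, b ∈ ℤ[T]` only finitely many `n ∈ BadN s a b κ C δ` satisfy `|n - y x ^ (ν m)| ≤ x ^ (θ ν m)` for some `m`;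
for almost every `x > 1` this holds for all `θ < κ`, `y` and ALL `a`, `b`. (2) For all `s` and `ε > 0` there are `C > 0` and
`0 < c ≤ 1 / 2` with the same property for the `D ∈ BadD s A B C c ε` with `| |D| - y x ^ (ν m) | ≤ x ^ (θ ν m)` for some
`m`, for ALL integers `A`, `B` (dimension at most `(1 - c) / (1 - θ)`; almost every `x`: all `θ < c`). -/
theorem result :
    (∀ (s : ℕ) (δ : ℝ), 1 ≤ s → 0 < δ → ∃ κ C : ℝ, 0 < κ ∧ κ ≤ 1 / 2 ∧ 0 < C ∧
      ∀ ν : ℕ → ℝ, Fast ν → ∀ U : Set ℝ, U.Countable →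
      (∀ θ : ℝ, θ < 1 → ∃ E : Set ℝ, dimH E ≤ ENNReal.ofReal ((1 - κ) / (1 - θ)) ∧
        ∀ x : ℝ, 1 < x → x ∉ E → ∀ y ∈ U, 0 < y → ∀ a b : ℤ[X],
          {n : ℕ | n ∈ BadN s a b κ C δ ∧ Near ν θ y x (n : ℝ)}.Finite) ∧
      (∀ᵐ x : ℝ, 1 < x → ∀ θ : ℝ, θ < κ → ∀ y ∈ U, 0 < y → ∀ a b : ℤ[X],
        {n : ℕ | n ∈ BadN s a b κ C δ ∧ Near ν θ y x (n : ℝ)}.Finite)) ∧
    (∀ (s : ℕ) (ε : ℝ), 0 < ε → ∃ C c : ℝ, 0 < C ∧ 0 < c ∧ c ≤ 1 / 2 ∧
      ∀ ν : ℕ → ℝ, Fast ν → ∀ U : Set ℝ, U.Countable →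
      (∀ θ : ℝ, θ < 1 → ∃ E : Set ℝ, dimH E ≤ ENNReal.ofReal ((1 - c) / (1 - θ)) ∧
        ∀ x : ℝ, 1 < x → x ∉ E → ∀ y ∈ U, 0 < y → ∀ A B : ℤ,
          {D : ℤ | D ∈ BadD s A B C c ε ∧ Near ν θ y x |(D : ℝ)|}.Finite) ∧
      (∀ᵐ x : ℝ, 1 < x → ∀ θ : ℝ, θ < c → ∀ y ∈ U, 0 < y → ∀ A B : ℤ,
        {D : ℤ | D ∈ BadD s A B C c ε ∧ Near ν θ y x |(D : ℝ)|}.Finite)) := by
  classical
  refine ⟨?_, ?_⟩
  · intro s δ hs hδ
    obtain ⟨κ, C, hκ, hC, h⟩ := Pool.Agent.Results.MP_29be01_nt.PolynomialFamilies.result s hs δ hδ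
    refine ⟨min κ (1 / 2), 2 * C, lt_min hκ (by norm_num), min_le_right _ _, by linarith, fun ν hν U hU => ?_⟩
    obtain ⟨g1, g2⟩ := Pool.Agent.V11153.NearW.nat_near (ι := ℤ[X] × ℤ[X])
      (fun i => BadN s i.1 i.2 (min κ (1 / 2)) (2 * C) δ)
      (s := 1 - min κ (1 / 2)) (by linarith [min_le_right κ (1 / 2)])
      (fun i => ⟨_, Pool.Agent.V11326.WW.fam_count hκ hC.le 1
        (fun n : ℕ => ∀ K : ℕ, (K : ℝ) ≤ (n : ℝ) ^ min κ (1 / 2) → ∀ I : Fin s → Set ℝ, (∀ i, (I i).OrdConnected) →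
            |(boxCount (i.1.eval (n : ℤ)) (i.2.eval (n : ℤ)) I K : ℝ) - boxModel i.1 i.2 I K| ≤
              2 * C * ((K : ℝ) ^ (1 / 2 + δ) * √(1 + Real.log n)))
        (fun N n : ℕ => ∀ K : ℕ, (K : ℝ) ≤ (N : ℝ) ^ κ → ∀ I : Fin s → Set ℝ, (∀ i, (I i).OrdConnected) →
            |(boxCount (i.1.eval (n : ℤ)) (i.2.eval (n : ℤ)) I K : ℝ) - boxModel i.1 i.2 I K| ≤
              C * ((K : ℝ) ^ (1 / 2 + δ) * √(1 + Real.log N)))
        (by
          intro N n hN hn1 hn2 hQ K hK I hI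
          have hN1 : (1 : ℝ) ≤ N := hN
          have hnN : (n : ℝ) ≤ N := by exact_mod_cast hn2
          have hn3 : (1 : ℝ) ≤ n := (Real.one_le_rpow hN1 (by norm_num)).trans hn1
          have hK' : (K : ℝ) ≤ (N : ℝ) ^ κ := by
            refine hK.trans ?_
            calc (n : ℝ) ^ min κ (1 / 2) ≤ (N : ℝ) ^ min κ (1 / 2) :=
                  Real.rpow_le_rpow (by linarith) hnN (lt_min hκ (by norm_num)).le
              _ ≤ (N : ℝ) ^ κ := Real.rpow_le_rpow_of_exponent_le hN1 (min_le_left _ _)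
          refine (hQ K hK' I hI).trans ?_
          have hlog : Real.log N ≤ 2 * Real.log n := by
            have h1 : Real.log ((N : ℝ) ^ (1 / 2 : ℝ)) ≤ Real.log n := Real.log_le_log (by positivity) hn1
            rw [Real.log_rpow (by linarith)] at h1
            linarith
          have hln : 0 ≤ Real.log n := Real.log_nonneg hn3
          have hsq : √(1 + Real.log N) ≤ 2 * √(1 + Real.log n) := by
            rw [show (2 : ℝ) = √4 by rw [show (4 : ℝ) = 2 ^ 2 by norm_num, Real.sqrt_sq (by norm_num)],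
              ← Real.sqrt_mul (by norm_num)]
            apply Real.sqrt_le_sqrt
            linarith
          have hKp : 0 ≤ (K : ℝ) ^ (1 / 2 + δ) := by positivity
          calc C * ((K : ℝ) ^ (1 / 2 + δ) * √(1 + Real.log N))
              ≤ C * ((K : ℝ) ^ (1 / 2 + δ) * (2 * √(1 + Real.log n))) := by gcongr
            _ = 2 * C * ((K : ℝ) ^ (1 / 2 + δ) * √(1 + Real.log n)) := by ring)
        (fun N hN => by
          obtain ⟨E, h1, h2⟩ := h i.1 i.2 N hN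
          exact ⟨E, h1, fun n hn hnE K hK I hI => h2 n hn hnE K hK I hI⟩)⟩)
      hν U hU
    refine ⟨fun θ hθ => ?_, ?_⟩
    · obtain ⟨E, hE1, hE2⟩ := g1 θ hθ
      exact ⟨E, hE1, fun x hx hxE y hy hy0 a b => hE2 x hx hxE y hy hy0 (a, b)⟩
    · filter_upwards [g2] with x hx hx1 θ hθ y hy hy0 a b
      exact hx hx1 θ (by linarith) y hy hy0 (a, b)
  · intro s ε hε
    obtain ⟨C, c, hC, hc, N₀, hN⟩ := Pool.Agent.Results.MP_29be01_nt.ReflectedBoxes.result s ε hε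
    refine ⟨C + 1, min c (1 / 2), by linarith, lt_min hc (by norm_num), min_le_right _ _, fun ν hν U hU => ?_⟩
    obtain ⟨M, hM⟩ := Pool.Agent.V11326.WW.twist_count hC hc N₀
    have hsub : ∀ A B : ℤ, BadD s A B (C + 1) (min c (1 / 2)) ε ⊆
        {D : ℤ | D ≠ 0 ∧ ∃ K : ℕ, (Real.log |(D : ℝ)|) ^ (C + 1) ≤ K ∧ (K : ℝ) ≤ |(D : ℝ)| ^ c ∧
          ∃ R : Fin s → Set ℝ, (∀ i, (R i).OrdConnected) ∧
            (K : ℝ) ^ (1 / 2 + ε) < |(Pool.Agent.W406.TW.cons (A * D ^ 2) (B * D ^ 3) R K : ℝ) -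
              (1 / 2 ^ s) * ∑ J : Finset (Fin s),
                (Pool.Agent.W406.TW.cons A B (Pool.Agent.W406.TW.refl J R) K : ℝ)|} := by
      rintro A B D ⟨hD0, K, h1, h2, h3⟩
      refine ⟨hD0, K, h1, h2.trans (Real.rpow_le_rpow_of_exponent_le ?_ (min_le_left _ _)), h3⟩
      have h1 : 1 ≤ |D| := Int.one_le_abs hD0
      exact_mod_cast h1
    obtain ⟨g1, g2⟩ := Pool.Agent.V11153.NearW.near (ι := ℤ × ℤ) (fun D : ℤ => |(D : ℝ)|)
      (fun i => {D : ℤ | D ≠ 0 ∧ ∃ K : ℕ, (Real.log |(D : ℝ)|) ^ (C + 1) ≤ K ∧ (K : ℝ) ≤ |(D : ℝ)| ^ c ∧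
        ∃ R : Fin s → Set ℝ, (∀ i, (R i).OrdConnected) ∧
          (K : ℝ) ^ (1 / 2 + ε) < |(Pool.Agent.W406.TW.cons (i.1 * D ^ 2) (i.2 * D ^ 3) R K : ℝ) -
            (1 / 2 ^ s) * ∑ J : Finset (Fin s),
              (Pool.Agent.W406.TW.cons i.1 i.2 (Pool.Agent.W406.TW.refl J R) K : ℝ)|})
      (s := 1 - min c (1 / 2)) (by linarith [min_le_right c (1 / 2)])
      (fun i => ⟨M, hM (fun D K => ∃ R : Fin s → Set ℝ, (∀ i, (R i).OrdConnected) ∧
          (K : ℝ) ^ (1 / 2 + ε) < |(Pool.Agent.W406.TW.cons (i.1 * D ^ 2) (i.2 * D ^ 3) R K : ℝ) -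
            (1 / 2 ^ s) * ∑ J : Finset (Fin s),
              (Pool.Agent.W406.TW.cons i.1 i.2 (Pool.Agent.W406.TW.refl J R) K : ℝ)|)
        (fun N hN' => hN N hN' i.1 i.2)⟩)
      hν U hU
    refine ⟨fun θ hθ => ?_, ?_⟩
    · obtain ⟨E, hE1, hE2⟩ := g1 θ hθ
      refine ⟨E, hE1, fun x hx hxE y hy hy0 A B => (hE2 x hx hxE y hy hy0 (A, B)).subset ?_⟩
      rintro D ⟨h1, h2⟩
      exact ⟨hsub A B h1, h2⟩
    · filter_upwards [g2] with x hx hx1 θ hθ y hy hy0 A B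
      refine (hx hx1 θ (by linarith) y hy hy0 (A, B)).subset ?_
      rintro D ⟨h1, h2⟩
      exact ⟨hsub A B h1, h2⟩

end Pool.Agent.Results.MP_29be01_nt.CurvesNearPowers
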